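import Pool.Agent.H14.AVR.Stmts3

/-!
# AVR: module LN2, the local rings of length two
-/

set_option autoImplicit false

namespace Pool.AVR

open Polynomial

theorem ln2_adjoinRoot (F : Type) [Field F] (P : F[X]) (hP : P.Monic) (hi : Irreducible P) :
    Len2 (AdjoinRoot (P ^ 2)) (AdjoinRoot.mk (P ^ 2) P) := by
  have hP0 : P ≠ 0 := hi.ne_zero
  have hsq : AdjoinRoot.mk (P ^ 2) P * AdjoinRoot.mk (P ^ 2) P = 0 := by
    rw [← map_mul, AdjoinRoot.mk_eq_zero, pow_two]
  have hne : AdjoinRoot.mk (P ^ 2) P ≠ 0 := by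
    intro h
    rw [AdjoinRoot.mk_eq_zero] at h
    obtain ⟨g, hg⟩ := h
    apply hi.not_isUnit
    have h1 : P * (P * g - 1) = 0 := by
      linear_combination -hg
    rcases mul_eq_zero.1 h1 with h2 | h2
    · exact absurd h2 hP0
    · exact IsUnit.of_mul_eq_one g (by linear_combination h2)
  refine ⟨hsq, hne, ?_, ?_, ?_⟩
  · intro x
    obtain ⟨g, rfl⟩ := AdjoinRoot.mk_surjective x
    by_cases hg : P ∣ g
    · right
      obtain ⟨h, rfl⟩ := hg
      exact ⟨AdjoinRoot.mk (P ^ 2) h, by rw [map_mul]⟩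
    · left
      have hc : IsCoprime P g := (hi.coprime_iff_not_dvd).2 hg
      have hc2 : IsCoprime (P ^ 2) g := hc.pow_left
      obtain ⟨u, v, huv⟩ := hc2
      refine IsUnit.of_mul_eq_one (AdjoinRoot.mk (P ^ 2) v) ?_
      have h1 := congrArg (AdjoinRoot.mk (P ^ 2)) huv
      rw [map_add, map_mul, map_mul, AdjoinRoot.mk_self, mul_zero, zero_add, map_one] at h1
      rw [mul_comm]
      exact h1
  · intro hu
    obtain ⟨w, hw⟩ := hu.exists_right_inv
    apply hne
    calc AdjoinRoot.mk (P ^ 2) P = AdjoinRoot.mk (P ^ 2) P * (AdjoinRoot.mk (P ^ 2) P * w) := by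
          rw [hw, mul_one]
      _ = (AdjoinRoot.mk (P ^ 2) P * AdjoinRoot.mk (P ^ 2) P) * w := by ring
      _ = 0 := by rw [hsq, zero_mul]
  · intro x hx
    obtain ⟨g, rfl⟩ := AdjoinRoot.mk_surjective x
    rw [← map_mul, AdjoinRoot.mk_eq_zero, pow_two] at hx
    have h1 : P ∣ g := (mul_dvd_mul_iff_left hP0).1 hx
    obtain ⟨h, rfl⟩ := h1
    exact ⟨AdjoinRoot.mk (P ^ 2) h, by rw [map_mul]⟩

theorem finite_adjoinRoot (F : Type) [Field F] [Finite F] (Q : F[X]) (hQ : Q.Monic) :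
    Finite (AdjoinRoot Q) := by
  haveI : Module.Finite F (AdjoinRoot Q) := hQ.finite_adjoinRoot
  exact Module.finite_of_finite F

theorem card_adjoinRoot (F : Type) [Field F] [Finite F] (Q : F[X]) (hQ : Q.Monic) :
    Nat.card (AdjoinRoot Q) = Nat.card F ^ Q.natDegree := by
  haveI : Module.Finite F (AdjoinRoot Q) := hQ.finite_adjoinRoot
  rw [Module.natCard_eq_pow_finrank (K := F)]
  congr 1
  rw [(AdjoinRoot.powerBasis' hQ).finrank, AdjoinRoot.powerBasis'_dim]

theorem ln2_res_adjoinRoot (F : Type) [Field F] [Finite F] (P : F[X]) (hP : P.Monic) :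
    res (AdjoinRoot.mk (P ^ 2) P) = Nat.card F ^ P.natDegree := by
  rw [← card_adjoinRoot F P hP]
  unfold res
  have h0 : (P ^ 2).eval₂ (AdjoinRoot.of P) (AdjoinRoot.root P) = 0 := by
    rw [eval₂_pow, AdjoinRoot.eval₂_root, zero_pow two_ne_zero]
  let φ : AdjoinRoot (P ^ 2) →+* AdjoinRoot P :=
    AdjoinRoot.lift (AdjoinRoot.of P) (AdjoinRoot.root P) h0
  have hφ : ∀ g : F[X], φ (AdjoinRoot.mk (P ^ 2) g) = AdjoinRoot.mk P g := by
    intro g
    change AdjoinRoot.lift (AdjoinRoot.of P) (AdjoinRoot.root P) h0 (AdjoinRoot.mk (P ^ 2) g) = _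
    rw [AdjoinRoot.lift_mk]
    have := AdjoinRoot.aeval_eq (R := F) (f := P) g
    rw [← this, Polynomial.aeval_def]
    rfl
  have hs : Function.Surjective φ := by
    intro y
    obtain ⟨g, rfl⟩ := AdjoinRoot.mk_surjective y
    exact ⟨AdjoinRoot.mk (P ^ 2) g, hφ g⟩
  have hk : RingHom.ker φ = Ideal.span {AdjoinRoot.mk (P ^ 2) P} := by
    ext x
    rw [RingHom.mem_ker, Ideal.mem_span_singleton]
    obtain ⟨g, rfl⟩ := AdjoinRoot.mk_surjective x
    rw [hφ, AdjoinRoot.mk_eq_zero]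
    constructor
    · rintro ⟨h, rfl⟩
      exact ⟨AdjoinRoot.mk (P ^ 2) h, by rw [map_mul]⟩
    · rintro ⟨y, hy⟩
      obtain ⟨h, rfl⟩ := AdjoinRoot.mk_surjective y
      rw [← map_mul] at hy
      have h1 := AdjoinRoot.mk_eq_mk.1 hy
      have h2 : P ∣ g - P * h := (Dvd.intro_left P (by ring : P * P = P ^ 2)).trans h1
      have h3 := dvd_add h2 (dvd_mul_right P h)
      simpa using h3
  rw [← hk]
  exact Nat.card_congr (RingHom.quotientKerEquivOfSurjective hs).toEquiv

theorem ln2_dualNumber (F : Type) [Field F] : Len2 (DualNumber F) DualNumber.eps := by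
  refine ⟨DualNumber.eps_mul_eps, ?_, ?_, ?_, ?_⟩
  · intro h
    have h1 := congrArg TrivSqZeroExt.snd h
    simp at h1
  · intro x
    by_cases hx : x.fst = 0
    · right
      refine ⟨TrivSqZeroExt.inl x.snd, ?_⟩
      ext
      · simp [hx]
      · simp
    · left
      rw [TrivSqZeroExt.isUnit_iff_isUnit_fst]
      exact isUnit_iff_ne_zero.2 hx
  · rw [TrivSqZeroExt.isUnit_iff_isUnit_fst]
    simp
  · intro x hx
    have h1 := congrArg TrivSqZeroExt.snd hx
    simp at h1
    refine ⟨TrivSqZeroExt.inl x.snd, ?_⟩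
    ext
    · simp [h1]
    · simp

theorem ln2_res_dualNumber (F : Type) [Field F] :
    res (DualNumber.eps : DualNumber F) = Nat.card F := by
  unfold res
  let φ : DualNumber F →+* F := (TrivSqZeroExt.fstHom F F F).toRingHom
  have hs : Function.Surjective φ := fun y => ⟨TrivSqZeroExt.inl y, rfl⟩
  have hk : RingHom.ker φ = Ideal.span {(DualNumber.eps : DualNumber F)} := by
    ext x
    rw [RingHom.mem_ker, Ideal.mem_span_singleton]
    constructor
    · intro hx
      have hx' : x.fst = 0 := hx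
      refine ⟨TrivSqZeroExt.inl x.snd, ?_⟩
      ext
      · simp [hx']
      · simp
    · rintro ⟨y, rfl⟩
      change (DualNumber.eps * y).fst = 0
      simp
  rw [← hk]
  exact Nat.card_congr (RingHom.quotientKerEquivOfSurjective hs).toEquiv

theorem ln2_thm : LN2Stmt := by
  intro F _ _
  exact ⟨fun P hP hi => ⟨ln2_adjoinRoot F P hP hi, finite_adjoinRoot F _ (hP.pow 2),
    ln2_res_adjoinRoot F P hP⟩, ln2_dualNumber F, ln2_res_dualNumber F⟩

end Pool.AVR
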