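import Pool.Agent.H14.AVR.Stmts3

/-!
# AVR: module SFI, squarefree discriminants give irreducible separable cubics
-/

set_option autoImplicit false

namespace Pool.AVR

open Polynomial

theorem sfi_disc_map {R S : Type} [CommRing R] [CommRing S] (φ : R →+* S) (a b c : R) :
    disc (φ a) (φ b) (φ c) = φ (disc a b c) := by
  simp [disc, map_ofNat]

/-- A root in `F[t]` has degree at most `2n`. -/
theorem sfi_deg (F : Type) [Field F] (n : ℕ) (a b c r : F[X]) (ha : a.natDegree ≤ 2 * n)
    (hb : b.natDegree ≤ 4 * n) (hc : c.natDegree ≤ 6 * n)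
    (h : r ^ 3 + a * r ^ 2 + b * r + c = 0) : r.natDegree ≤ 2 * n := by
  by_contra hlt
  push Not at hlt
  have h0 : r ^ 3 = -(a * r ^ 2 + b * r + c) := by linear_combination h
  have h1 : (r ^ 3).natDegree = 3 * r.natDegree := natDegree_pow r 3
  have h2 : (-(a * r ^ 2 + b * r + c)).natDegree < 3 * r.natDegree := by
    rw [natDegree_neg]
    have e1 : (a * r ^ 2).natDegree ≤ a.natDegree + 2 * r.natDegree :=
      natDegree_mul_le.trans (by rw [natDegree_pow])
    have e2 : (b * r).natDegree ≤ b.natDegree + r.natDegree := natDegree_mul_le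
    have e3 := natDegree_add_le (a * r ^ 2 + b * r) c
    have e4 := natDegree_add_le (a * r ^ 2) (b * r)
    have e5 : max (a * r ^ 2 + b * r).natDegree c.natDegree < 3 * r.natDegree := by
      apply max_lt
      · refine lt_of_le_of_lt e4 (max_lt ?_ ?_) <;> omega
      · omega
    exact lt_of_le_of_lt e3 e5
  rw [← h0, h1] at h2
  exact lt_irrefl _ h2

theorem sfi_root (F : Type) [Field F] (n : ℕ) (hn : 1 ≤ n) (a b c r : F[X])
    (ha : a.natDegree ≤ 2 * n) (hb : b.natDegree ≤ 4 * n) (hc : c.natDegree ≤ 6 * n)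
    (hsf : Squarefree (disc a b c)) (hdeg : 12 * n ≤ (disc a b c).natDegree + 1)
    (h : r ^ 3 + a * r ^ 2 + b * r + c = 0) : False := by
  have hr := sfi_deg F n a b c r ha hb hc h
  set g : F[X] := 3 * r ^ 2 + 2 * a * r + b with hg
  set D' : F[X] := (a + r) ^ 2 - 4 * (b + a * r + r ^ 2) with hD'
  have hD : disc a b c = g * g * D' := by
    have hc' : c = -(r ^ 3 + a * r ^ 2 + b * r) := by linear_combination h
    rw [hc', hg, hD', disc]
    ring
  have hu : IsUnit g := hsf g ⟨D', hD⟩
  have hg0 : g.natDegree = 0 := natDegree_eq_zero_of_isUnit hu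
  have e1 : (a + r).natDegree ≤ 2 * n := natDegree_add_le_of_degree_le ha hr
  have e2 : ((a + r) ^ 2).natDegree ≤ 4 * n := by
    rw [natDegree_pow]; omega
  have e3 : (a * r).natDegree ≤ 4 * n := natDegree_mul_le.trans (by omega)
  have e4 : (r ^ 2).natDegree ≤ 4 * n := by
    rw [natDegree_pow]; omega
  have e5 : (b + a * r + r ^ 2).natDegree ≤ 4 * n :=
    natDegree_add_le_of_degree_le (natDegree_add_le_of_degree_le hb e3) e4
  have e6 : (4 * (b + a * r + r ^ 2)).natDegree ≤ 4 * n := by
    have : (4 : F[X]) = C (4 : F) := (map_ofNat (C : F →+* F[X]) 4).symm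
    rw [this]
    exact (natDegree_C_mul_le _ _).trans e5
  have e7 : D'.natDegree ≤ 4 * n := (natDegree_sub_le_of_le e2 e6).trans (by simp)
  have e8 : (disc a b c).natDegree ≤ 4 * n := by
    rw [hD]
    have k1 : (g * g * D').natDegree ≤ (g * g).natDegree + D'.natDegree := natDegree_mul_le
    have k2 : (g * g).natDegree ≤ g.natDegree + g.natDegree := natDegree_mul_le
    omega
  omega

theorem sfi_thm (hDSC : DSCStmt) : SFIStmt := by
  intro F _ _ h2 n hn f hf
  obtain ⟨a, b, c⟩ := f
  obtain ⟨hfam, hsf, hdeg⟩ := hf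
  refine ⟨hfam, ?_, ?_⟩
  · obtain ⟨ha, hb, hc⟩ := hfam
    have hm : (cubK (a, b, c)).Monic := by
      unfold cubK cub
      monicity!
    have hd : (cubK (a, b, c)).natDegree = 3 := by
      unfold cubK cub
      compute_degree!
    rw [irreducible_iff_roots_eq_zero_of_degree_le_three (by omega) (by omega)]
    rw [Multiset.eq_zero_iff_forall_notMem]
    intro x hx
    rw [mem_roots hm.ne_zero, IsRoot.def] at hx
    have hx' : (cubP (a, b, c)).eval₂ (algebraMap F[X] (RatFunc F)) x = 0 := by
      simp only [cubK, cubP, cub, eval_add, eval_mul, eval_pow, eval_X, eval_C, eval₂_add,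
        eval₂_mul, eval₂_pow, eval₂_X, eval₂_C] at hx ⊢
      exact hx
    have hmP : (cubP (a, b, c)).Monic := by
      unfold cubP cub
      monicity!
    obtain ⟨r, hr⟩ := isInteger_of_is_root_of_monic (A := F[X]) (K := RatFunc F) hmP
      (r := x) (by rw [aeval_def]; exact hx')
    rw [← hr, eval₂_at_apply] at hx'
    have hx2 := (map_eq_zero_iff _ (IsFractionRing.injective F[X] (RatFunc F))).1 hx'
    simp only [cubP, cub, eval_add, eval_mul, eval_pow, eval_X, eval_C] at hx2
    exact sfi_root F n hn a b c r ha hb hc hsf hdeg hx2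
  · have h2' : (2 : RatFunc F) ≠ 0 := by
      have : (2 : RatFunc F) = algebraMap F (RatFunc F) 2 :=
        (map_ofNat (algebraMap F (RatFunc F)) 2).symm
      rw [this]
      exact (_root_.map_ne_zero _).2 h2
    unfold cubK
    rw [(hDSC (RatFunc F) h2' _ _ _).1, sfi_disc_map]
    exact (map_ne_zero_iff _ (IsFractionRing.injective F[X] (RatFunc F))).2 hsf.ne_zero

end Pool.AVR
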